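import Pool.Agent.H918.S.SetThm2

/-!
Entire curves in projective varieties which are, up to a finite unramified covering, fibred over an
elliptic curve.
-/

set_option autoImplicit false

open Filter Topology FF Metric LinearAlgebra.Projectivization Pool.Agent.W602.GT
  Pool.Agent.N154.GG Pool.Agent.H918.SS Pool.Agent.H918.SP

/-- Let `X = {F = 0}` be an irreducible projective variety of dimension `d ≥ 2`, which may be singular,
and let `X' = {F' = 0}` be a finite unramified covering of `X` with a holomorphic map `α` to an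
elliptic curve `E = ℂ / L`, for example `X' = X`. Suppose that there is a finite set `B` of points of
`E` such that `X'` has a semistable reduction which is unramified outside of the fibres over `B`
(`HasReduction`). By the theorems of Deligne and Mumford and of Arakelov, all smooth projective
surfaces of general type with a holomorphic map with connected fibres to an elliptic curve satisfy
this.

Then there is a finite set `S` of holomorphic maps `g` from the complex plane to `X`, periodic with
respect to a lattice, such that every holomorphic map `f` from the complex plane to `X` is constant,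
or has its values in the image of the fibre over a point of `B`, or is `g ∘ φ` with `g` in `S` and an
entire function `φ`.

Moreover, there is a form `G`, not identically zero on `X`, such that for every form `H` which is zero
at the images of the points of the fibres over `B` the closed subset `{G H = 0}` of `X` contains all
nonconstant entire curves: `X` is pseudo Brody hyperbolic. -/
theorem Pool.Agent.Results.MP_2a5ae2_ag.FibredEntireCurves.result {m n : ℕ} {ι ι' : Type}
    (F : ι → MvPolynomial (Fin (n + 1)) ℂ) (d : ℕ) (K : Type) [Field K] [Algebra ℂ K]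
    (y : Fin (n + 1) → K) (hX : ProjVariety F d y) (hd : 2 ≤ d)
    (F' : ι' → MvPolynomial (Fin (m + 1)) ℂ) (hF' : ∀ i, IsForm (F' i))
    (Q : Fin (n + 1) → MvPolynomial (Fin (m + 1)) ℂ) (hQ : EtaleCovering F F' Q) (L : PeriodPair)
    (α : (Fin (m + 1) → ℂ) → ℂ ⧸ L.lattice) (hα : HolToTorus (Cone F') L α)
    (B : Set (ℂ ⧸ L.lattice)) (hB : B.Finite) (hred : HasReduction F' α B) :
    ∃ (S : Set (ℂ → ℙ ℂ (Fin (n + 1) → ℂ))) (k : ℕ), S.Finite ∧ 0 < k ∧
      (∀ g ∈ S, HolIn F g ∧ ∀ l ∈ L.lattice, ∀ z, g (z + k * l) = g z) ∧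
      (∀ f, HolIn F f → (∀ z w, f z = f w) ∨ (∃ b ∈ B, ∀ z, OverPoint F' α Q b (f z).rep) ∨
        ∃ g ∈ S, ∃ φ : ℂ → ℂ, Differentiable ℂ φ ∧ ∀ z, f z = g (φ z)) ∧
      ∃ G : MvPolynomial (Fin (n + 1)) ℂ, IsForm G ∧ val y G ≠ 0 ∧
        ∀ H : MvPolynomial (Fin (n + 1)) ℂ, IsForm H →
          (∀ u ∈ Cone F, (∃ b ∈ B, OverPoint F' α Q b u) → val u H = 0) →
          ∀ f, HolIn F f → (∀ z w, f z = f w) ∨ ∀ z, val (f z).rep (G * H) = 0 := by
  obtain ⟨S, k, h1, h2, h3, -, h4, -, -, G, g1, g2, g3, -⟩ := allV hX hd hF' hQ hα hB hred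
  refine ⟨S, k, h1, h2, fun g hg => ⟨(h3 g hg).1, (h3 g hg).2.1⟩, h4, G, g1, g2,
    fun H hH hHB f hf => ?_⟩
  rcases h4 f hf with h8 | ⟨b, hb, h8⟩ | ⟨g, hg, φ, -, h8⟩
  · exact Or.inl h8
  · right
    intro z
    rw [val_mul', hHB _ (hf.2 z) ⟨b, hb, h8 z⟩, mul_zero]
  · right
    intro z
    rw [h8, val_mul', g3 g hg, zero_mul]
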