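import Mathlib
import Pool.Agent.H917.G.W4

/-!
MP_2a5ae2_ag, Q1: a closed subvariety of a projective variety `X` such that some symmetric power of
the cotangent bundle of `X` is generated by global sections is pseudo-Brody hyperbolic if and only if
it is of general type.
-/

set_option autoImplicit false

namespace Pool.Agent.Results.MP_2a5ae2_ag.GenPowersPseudoBrody

open MvPolynomial Metric Set Pool.Agent.H917
open Pool.Agent.W602.GT (GeneralType)

/-- Let `X` be the projective variety with the homogeneous ideal `p`, such that the `m`-th symmetric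
power of the cotangent sheaf of `X` is generated by global sections, for some `m ≥ 1`. Let `V` be an
irreducible closed subvariety of `X` (such as `X` itself, if `X` is irreducible), with the
homogeneous prime ideal `q`, the function field `K` and the generic point `y`. Then `V` is of general
type if and only if it is pseudo-Brody hyperbolic: there is a form `G`, not vanishing on `V`, such
that the closed subset `G = 0` contains the images of all entire curves of `V`. Moreover the smallest
closed subset `Sp_h (V)` which contains the images of all entire curves of `V` is the union of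
finitely many irreducible closed subvarieties `W` of positive dimension, with the ideals `r` in `S`,
which are not of general type; and the images of the nonconstant holomorphic maps from abelian
varieties to `W` are Zariski dense in `W`, for each of them. -/
theorem result {n : ℕ} (p : Ideal (MvPolynomial (Fin (n + 1)) ℂ))
    {m : ℕ} (hm : 1 ≤ m) (hg : Generated p m)
    (q : Ideal (MvPolynomial (Fin (n + 1)) ℂ)) (hqp : q.IsPrime)
    (hq : ∀ H ∈ q, ∀ d, homogeneousComponent d H ∈ q) (hpq : p ≤ q) (K : Type) [Field K]
    [Algebra ℂ K] (w : ℕ) (y : Fin (n + 1) → K) (hy : SubVar q K w y)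
    (hf : ∀ H : MvPolynomial (Fin (n + 1)) ℂ, (∃ d, H.IsHomogeneous d) → aeval y H = 0 → H ∈ q) :
    (GeneralType ℂ K w ↔ ∃ G : MvPolynomial (Fin (n + 1)) ℂ, (∃ d, G.IsHomogeneous d) ∧ G ∉ q ∧
      ∀ f, EntCurve q f → ∀ z, eval (f z) G = 0) ∧
    ∃ S : Finset (Ideal (MvPolynomial (Fin (n + 1)) ℂ)),
      (∀ r ∈ S, q ≤ r ∧ r.IsPrime ∧ (∀ H ∈ r, ∀ d, homogeneousComponent d H ∈ r) ∧ NotGT r ∧
        SpAb r = Pts r) ∧
      SpH q = {x | ∃ r ∈ S, x ∈ Pts r} := by
  obtain ⟨N, s, hs⟩ := hg
  have hs' : Gens p m s := ⟨hs⟩
  obtain ⟨S, h3, h4⟩ := spAlg_eq hq (hs'.res hpq) hm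
  refine ⟨(tfae_pseudo hqp hq (hs'.res hpq) hm hy hf).out 0 1, S, fun r hr => ?_,
    (sp_eq hq (hs'.res hpq) hm).2.trans h4⟩
  obtain ⟨h6, h7, h8⟩ := h3 r hr
  refine ⟨h6, h8.isPrime h7, h7, h8, ?_⟩
  rw [(spAb_eq h7 (hs'.res (hpq.trans h6)) hm).1]
  exact Subset.antisymm (fun x hx => hx.1) (pts_sub_spAlg h8)

end Pool.Agent.Results.MP_2a5ae2_ag.GenPowersPseudoBrody
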