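import Pool.Agent.H910.Gg.Cls
import Pool.Agent.H910.Cf.Cyw

/-!
# The Green-Griffiths-Lang conjecture for varieties with ramified maps to spaces of binary forms

Let `X` be a complex projective variety, of arbitrary dimension and with arbitrary singularities, with
the function field `K` and the generic point `x` (homogeneous coordinates in `K`; `coords ℂ x = ⊤`
says that their ratios generate `K`). `P^(n + 1)` is the space of the binary forms `y` of degree
`n + 1`. A rational map `y` from `X` to this space, with image not contained in the discriminant
hypersurface, is *ramified* (`RamP`) if there are distinct numbers `a i` and weights `μ i ≤ M`, `c i`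
and `cD` with `(n + 1) (∑ c i + 2 n cD) + 2 M < ∑ μ i`, such that at all places of the points of `X`
(with coordinates in a field extension of `ℂ`, outside of a proper closed subset) the orders of
contact `s i` of the image with the hyperplanes of the forms which vanish at `(1 : a i)` and `t` with
the discriminant hypersurface satisfy one of the following conditions: `t = 0` and each `s i` is zero
or at least `M / (M - μ i)`; or `∑ c i s i + cD t ≥ M`.

`PBrody b x`: `X` is pseudo-Brody hyperbolic, that is, a proper closed subset `G = 0` of `X` contains
all nonconstant entire curves in `X`; if `b` is true, then moreover `deg v ≤ A (2 g - 2)` for all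
nonconstant maps `v` from curves of genus `g` to `X` with image not contained in `G = 0`, for some `A`
(curves of genus at least two have this property).

`MapClass b x`, for `b` true or false: each closed subvariety `V` of dimension at least two of `X`
has a generically finite ramified map; or `V` is of general type, and there are finitely many rational
maps `y l` from `V` to varieties with the property `PBrody b` and finitely many ramified maps `z l` from
`V`, such that the image of `V` in the product has dimension at least `dim V - 1` (`Fibred b`).

**Theorem.** (I) **The conjecture holds for all closed subvarieties of all `X` in this class**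
(`AllSettled`): let `X` be in `MapClass b`, of any dimension (`b` may be false). Each closed subvariety
`V` of positive dimension of `X` is pseudo-Brody hyperbolic if and only if it is of general type. The
Zariski closure of each nonconstant entire curve in `V` is a curve of geometric genus at most one, each
of these curves is the closure of an entire curve, and all other closed subvarieties of positive
dimension are of general type (and pseudo-Brody hyperbolic). The following are equivalent: `X` is
Kobayashi hyperbolic; `X` is Brody hyperbolic; all closed subvarieties of positive dimension are of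
general type; there is no nonconstant map from an elliptic curve to `X`; there are no closed curves of
genus at most one in `X`. If `b` is true, then moreover the closed curves of genus at most one in `V`
are finite in number, so the exceptional locus of `V` is their union, `deg v ≤ A (2 g - 2)` for all
other nonconstant maps from curves to `V` (`AllFinite`), and the algebraic hyperbolicity of `X` and the
finiteness of the pointed maps from curves to `X` are also equivalent to the hyperbolicity of `X`.

(II) Let `X` be any projective variety, with finitely many dominant rational maps `y l` to pseudo-Brody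
hyperbolic varieties and finitely many ramified maps `z l`, and let `Z` be the image of `X` in the
product. If `X` is of general type and `dim X ≤ dim Z + 1`, or if `dim X = dim Z`, then `X` is
pseudo-Brody hyperbolic (`Fibred`). The same with degree bounds (`b` true). For instance, a surface of
general type with a nonconstant ramified map is pseudo-Brody hyperbolic.

(III) If `X` has a generically finite ramified map, then there is a proper closed subset `G = 0` of `X`
which contains all nonconstant entire curves in `X` and all holomorphic maps from the punctured disc to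
`X` with an essential singularity; and all closed subvarieties `V` of `X` not contained in `G = 0`, of
positive dimension, for instance `X`, are of general type, with `deg w ≤ A (2 g - 2)` for the maps from
curves to `V` with image not in `G = 0`; so all these `V` are pseudo-Brody hyperbolic.

(IV) Surfaces with a generically finite ramified map, and surfaces of general type with a nonconstant
ramified map, belong to the class (`RamSurface`). If `y l` are finitely many generically finite
ramified maps from `X`, of any dimension, then there are proper closed subsets `G l = 0` of `X` such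
that `X` belongs to the class if no closed subvariety of dimension at least two is contained in all of
them.

(V) A numerical criterion for ramified maps: products of powers of the values at the points
`(1 : a i)` and of the discriminant of `y` are powers in `K` up to constants, and there are weights for
which all possible orders of contact satisfy the condition.

(VI) Examples. Let `a i`, `i ≤ r`, be distinct numbers, `1 ≤ n < r`, `n + r + 2 < m (r - 1)`, and let
`Y j` be forms of degree `m` in `x 0, ..., x r`. The irreducible subvarieties `V` of positive dimension,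
not contained in a coordinate hyperplane, of the variety in `P^(r + 1)` with the equations
`Y(x) (1 : a i) = x i ^ m` and `disc Y(x) = x (r + 1) ^ (2 n m)` are of general type, and all entire
curves in them are contained in `∏ x i = 0`. (For `r = n + 1` there is a `Y` with
`Y(x) (1 : a i) = x i ^ m`, and this is the hypersurface `disc Y(x) = x (r + 1) ^ (2 n m)`.)

(VII) Let `r = n + 1` and `2 n + 3 < n m`. For each `s ≥ n - 1` there are invertible matrices
`σ 0, ..., σ s` such that all irreducible closed subvarieties of the complete intersection of dimension
`n + 1` in `P^(n + 2 + s)` with the equations `disc Y(σ l x) = (w l) ^ (2 n m)`, `l = 0, ..., s`,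
belong to the class.

`PBrody`, `MapClass`, `AllSettled`, `AllFinite` in (I), `Fibred` in (II), `OneMap`, `StrongOff` in
(III) : `Pool/Agent/H910/Gg/Defs.lean`; `PseudoBrody`, `EntireCurve` :
`Pool/Graph/R_seed8/Y221/BD/Defs.lean`; `EssentialDisc` : `Pool/Graph/R_seed8/Y221/PD/Defs.lean`;
`KobayashiHyp`, `BrodyHyp`, `AllGeneral`, `NoElliptic`, `AlgHyp`, `GeomHyp` :
`Pool/Graph/R_pool_sql_team_seeded_3997aac3/Q103/SF/Defs2.lean`; `lowCurves` :
`Pool/Graph/R_pool_sql_team_seeded_3997aac3/Q103/SF/Defs.lean`; `SubOf` :
`Pool/Graph/R_seed8/TH466/QG/Strong.lean`; `GeneralType` : `Pool/Graph/R_seed8/W602/GT/Defs.lean`;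
`CurveSets`, `RamSurface` : `Pool/Agent/H910/Cf/Bdf.lean`;
`RamP`, `Covering`, `OnCyclic`, `OnFib` : `Pool/Agent/H910/Cf/Cdf.lean`; `Ram`, `Gen` :
`Pool/Agent/H910/Cf/Defs.lean`; `Root`, `Wts` : `Pool/Agent/H910/Cf/Crit.lean`; `hyp`, `dsc` :
`Pool/Agent/H910/Vf/Defs.lean`.
-/

set_option autoImplicit false
set_option linter.overlappingInstances false

open FF Pool.Agent.H910.Cf Pool.Agent.H910.Gg
open Pool.Agent.W602.GT (coords IsForm GeneralType val)
open Pool.Agent.TH466.QG (SubOf)
open Pool.Agent.Y221.BD (EntireCurve)
open Pool.Agent.Q103.SF (lowCurves KobayashiHyp BrodyHyp AllGeneral NoElliptic AlgHyp GeomHyp)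
open Pool.Agent.H910.Vf (hyp dsc)

namespace Pool.Agent.Results.MP_2a5ae2_ag.MapsToBinaryForms

/-- **The Green-Griffiths-Lang conjecture for varieties with ramified maps to spaces of binary forms.**
See the explanation at the beginning of the file. -/
theorem result :
    (∀ (M : ℕ) (K : Type) [Field K] [Algebra ℂ K] (x : Fin (M + 1) → K), x ≠ 0 →
      coords ℂ x = ⊤ →
      (∀ b, MapClass b x → AllSettled x ∧ List.TFAE [KobayashiHyp x, BrodyHyp x, AllGeneral x,
        NoElliptic x, lowCurves x = ∅]) ∧
      (MapClass True x → AllFinite x ∧ List.TFAE [BrodyHyp x, AlgHyp x, GeomHyp x]) ∧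
      (∀ b, Fibred b x → PBrody b x) ∧
      (OneMap x → StrongOff x) ∧
      (∀ b, RamSurface x → MapClass b x) ∧
      (∀ (r : ℕ) (n : Fin r → ℕ) (y : ∀ l, Fin (n l + 2) → K),
        (∀ l, RamP ℂ x (y l)) → (∀ l, Algebra.IsAlgebraic (coords ℂ (y l)) K) →
        ∃ G : Fin r → MvPolynomial (Fin (M + 1)) ℂ, (∀ l, IsForm (G l) ∧ val x (G l) ≠ 0) ∧
          ((∀ (E : Type) [Field E] [Algebra ℂ E] (z : Fin (M + 1) → E) (t : ℕ), SubOf ℂ x z →
            Algebra.trdeg ℂ E = t → 2 ≤ t → ∃ l, val z (G l) ≠ 0) → MapClass True x)) ∧
      (∀ (n q r : ℕ) (y : Fin (n + 2) → K) (a : Fin q → ℂ) (m : Fin r → ℕ)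
        (c : Fin r → Fin q → ℕ) (d : Fin r → ℕ), Function.Injective a → Gen a y →
        (∀ l, Root a y (m l) (c l) (d l)) →
        (Wts n fun s t => ∀ l, m l ∣ ∑ i, c l i * s i + d l * t) → RamP ℂ x y)) ∧
    (∀ (n r m : ℕ) (a : Fin (r + 1) → ℂ) (Y : Fin (n + 2) → MvPolynomial (Fin (r + 1)) ℂ),
      Covering m a Y → 1 ≤ n → n + 1 ≤ r → n + r + 2 < m * (r - 1) →
      ∀ (K : Type) [Field K] [Algebra ℂ K] (x : Fin (r + 2) → K) (t : ℕ), OnCyclic m a Y x →
        coords ℂ x = ⊤ → 1 ≤ t → Algebra.trdeg ℂ K = t → GeneralType ℂ K t ∧
          ∀ f, EntireCurve x f → ∀ t, ∏ i, f i t = 0) ∧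
    (∀ (n m : ℕ) (a : Fin (n + 2) → ℂ), Function.Injective a → 1 ≤ n → 2 * n + 3 < n * m →
      ∀ s : ℕ, n ≤ s + 1 → ∃ Y : Fin (n + 2) → MvPolynomial (Fin (n + 2)) ℂ,
        (∀ j, (Y j).IsHomogeneous m) ∧
        (∀ i, MvPolynomial.aeval Y (hyp ℂ (n + 1) 1 (a i)) = MvPolynomial.X i ^ m) ∧
        ∃ σ : Fin (s + 1) → Matrix (Fin (n + 2)) (Fin (n + 2)) ℂ, (∀ l, (σ l).det ≠ 0) ∧
          ∀ (K : Type) [Field K] [Algebra ℂ K] (x : Fin (n + 2 + s + 1) → K), OnFib m Y σ x →
            MapClass True x) := by
  refine ⟨fun M K _ _ x hx hgen => ⟨fun b h => ⟨h.settled, h.tfae⟩,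
      fun h => ⟨h.finite, ?_⟩, fun b h => h.pbrody hx hgen, fun h => single hx hgen h,
      fun b h => mapClass_of_binary h.binary,
      fun r n y hy halg => ?_, fun n q r y a m c d ha hy hroot hw =>
        ramP_criterion hx hgen ha hy hroot hw⟩,
    fun n r m a Y hY hn hr hm K _ _ x t hx hgen ht htr =>
      ⟨(cyc_all hY hr hn hm hx hgen ht htr).1, (cyc_ent hm hY hr hn hx).1⟩,
    fun n m a ha hn hm s hs => ?_⟩
  · have h1 := (h.curves hx hgen).tfae
    tfae_have 1 ↔ 2 := h1.out 1 3
    tfae_have 1 ↔ 3 := h1.out 1 4
    tfae_finish
  · obtain ⟨G, hG, hall⟩ := hered_of_maps hx hgen hy halg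
    exact ⟨G, hG, fun h => mapClass_of_binary (hall 2 h).binary⟩
  · obtain ⟨Y, hY1, hY2, σ, hσ, hall⟩ := fib_class (d := 2) (s := s) hn hm (by norm_num)
      (by omega) ha
    exact ⟨Y, hY1, hY2, σ, hσ, fun K _ _ x hf => mapClass_of_binary (hall K x hf).binary⟩

end Pool.Agent.Results.MP_2a5ae2_ag.MapsToBinaryForms
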