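import Pool.Agent.H915.TC.Rm4
import Pool.Agent.H915.TC.Fin

/-!
MP_2a5ae2_ag, Q1: surfaces which are highly ramified over two curves in the projective plane.

Let `C_0 = {H 0 = 0}` and `C_1 = {H 1 = 0}` be smooth plane curves of degrees `d 0` and `d 1` which
intersect transversally (`Transversal`). A projective variety `X = {F = 0}` with a map
`q = (q_0 : q_1 : q_2)` to the plane, given by forms of the same degree without common zeros on `X`
(so `q` is finite), is ramified to the order at least `m` over `C_a` if near every point of `X` over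
`C_a` the function `H_a (q)` is a unit times `B ^ m C`, for a function `B` which vanishes on the
preimage of `C_a` (`RamifiedCover`). For a smooth surface `X` this says that all multiplicities of
the divisor `q^* C_a` are at least `m`.

(1) If `3 m < (m - 1) (d 0 + d 1)` then all surfaces in such varieties `X`, ramified to the order
at least `m` over `C_0` and `C_1`, are of general type.

(2) Suppose that `4 ≤ d 0 + d 1`. The following are equivalent: (a) all morphisms from the
multiplicative group to the complement of the two curves in the plane are constant; (b) there are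
`m` and `C` such that the derivative at the origin is at most `C / R`, in the Fubini-Study metric,
for all holomorphic maps `f` from the disc of radius `R` to the plane such that all zeros of `H_0 (f)`
and `H_1 (f)` are of order at least `m`. If this is true then all entire curves in `X` are constant,
for all varieties `X` which are ramified to the order at least `m` over `C_0` and `C_1`.

(3) If `H 0`, `H 1` are very general forms of degrees `d 0, d 1 > 0` with `5 ≤ d 0 + d 1`, then there
is an `m` such that all varieties `X` which are ramified to the order at least `m` over `C_0` and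
`C_1` are Brody hyperbolic, and all surfaces in `X` are of general type. In particular, for all
large `l`, the surface `w_a ^ (l d_a) = H_a (x_0 ^ l, x_1 ^ l, x_2 ^ l)`, `a = 0, 1`, in projective
space of dimension four is Brody hyperbolic and of general type.

A surface in `X` is given by its generic point `y`, in homogeneous coordinates, over its function
field `K` or a finite extension of it; the surface maps onto the plane if `K` is algebraic over the
field generated by the ratios of the `q_j (y)` (for surfaces in `X` this is always so, as `q` is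
finite).
-/

set_option autoImplicit false

namespace Pool.Agent.Results.MP_2a5ae2_ag.RamifiedOverTwoCurves

open MvPolynomial Metric Filter Topology
open Pool.Agent.W602.GT (coords GeneralType)
open Pool.Agent.Results.MP_64ff02_ag.GenericPairsSpecialSet (VeryGeneral OnPair)

/-- The plane curves `H 0 = 0` and `H 1 = 0`, of degrees `d 0` and `d 1`, are smooth and intersect
transversally. -/
structure Transversal (H : Fin 2 → MvPolynomial (Fin (2 + 1)) ℂ) (d : Fin 2 → ℕ) : Prop where
  pos : ∀ a, 0 < d a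
  form : ∀ a, (H a).IsHomogeneous (d a)
  smooth : ∀ a (x : Fin (2 + 1) → ℂ), x ≠ 0 → eval x (H a) = 0 → ∃ i, eval x (pderiv i (H a)) ≠ 0
  transversal : ∀ x : Fin (2 + 1) → ℂ, x ≠ 0 → eval x (H 0) = 0 → eval x (H 1) = 0 →
    ∃ i j, eval x (pderiv i (H 0)) * eval x (pderiv j (H 1)) ≠
      eval x (pderiv j (H 0)) * eval x (pderiv i (H 1))

/-- The polynomials `q` are the homogeneous coordinates of a nonconstant morphism from the
multiplicative group to the complement of the two curves. -/
def GmCurve (H : Fin 2 → MvPolynomial (Fin (2 + 1)) ℂ) (q : Fin (2 + 1) → Polynomial ℂ) : Prop :=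
  (∀ t, t ≠ 0 → OnPair H ∅ fun i => (q i).eval t) ∧
    ∃ s t i j, s ≠ 0 ∧ t ≠ 0 ∧ (q i).eval s * (q j).eval t ≠ (q j).eval s * (q i).eval t

/-- If the form `G` vanishes at the point `z` of the curve `f` then the order is at least `m`. -/
def ZeroOrder (G : MvPolynomial (Fin (2 + 1)) ℂ) (m : ℕ) (f : ℂ → Fin (2 + 1) → ℂ) (z : ℂ) : Prop :=
  eval (f z) G = 0 → ∃ k : ℂ → ℂ, AnalyticAt ℂ k z ∧ ∀ᶠ w in 𝓝 z, eval (f w) G = (w - z) ^ m * k w

/-- The point with homogeneous coordinates `x` is in the projective variety `F = 0`. -/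
def InX {ι : Type} {n : ℕ} (F : ι → MvPolynomial (Fin n) ℂ) (x : Fin n → ℂ) : Prop :=
  x ≠ 0 ∧ ∀ i, eval x (F i) = 0

/-- `F = 0` is a projective variety with the map `q` to the plane, which is ramified to the order at
least `m` over the curves `H 0 = 0` and `H 1 = 0`. -/
structure RamifiedCover (H : Fin 2 → MvPolynomial (Fin (2 + 1)) ℂ) (m : ℕ) {ι : Type} {n : ℕ}
    (F : ι → MvPolynomial (Fin n) ℂ) (q : Fin (2 + 1) → MvPolynomial (Fin n) ℂ) : Prop where
  eqs : ∀ i, ∃ a, (F i).IsHomogeneous a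
  map : ∃ e, 0 < e ∧ ∀ j, (q j).IsHomogeneous e
  base : ∀ x, InX F x → ∃ j, eval x (q j) ≠ 0
  ram : ∀ a p, InX F p → eval (fun j => eval p (q j)) (H a) = 0 →
    ∃ A B C : MvPolynomial (Fin n) ℂ, eval p A ≠ 0 ∧
      (∀ x, InX F x → eval (fun j => eval x (q j)) (H a) = 0 → eval x A ≠ 0 → eval x B = 0) ∧
      ∀ x, InX F x → eval x A * eval (fun j => eval x (q j)) (H a) = eval x B ^ m * eval x C

/-- All holomorphic maps from the complex plane to the variety `F = 0` are constant. -/
def BrodyHyperbolic {ι : Type} {n : ℕ} (F : ι → MvPolynomial (Fin n) ℂ) : Prop :=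
  ∀ f : ℂ → Fin n → ℂ, Differentiable ℂ f → (∀ z, InX F (f z)) →
    ∀ z w i j, f z i * f w j = f z j * f w i

/-- All surfaces in `F = 0` that are mapped onto the plane by `q` are of general type. -/
def SurfacesOfGeneralType {ι : Type} {n : ℕ} (F : ι → MvPolynomial (Fin n) ℂ)
    (q : Fin (2 + 1) → MvPolynomial (Fin n) ℂ) : Prop :=
  ∀ (K : Type) [Field K] [Algebra ℂ K] (y : Fin n → K), y ≠ 0 → (∀ i, aeval y (F i) = 0) →
    Algebra.trdeg ℂ K = (2 : ℕ) →
      Algebra.IsAlgebraic (coords ℂ (n := 2) fun j => aeval y (q j)) K → GeneralType ℂ K 2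

/-- The derivative estimate for discs in the plane with zeros of order at least `m`. -/
def DerivativeEstimate (H : Fin 2 → MvPolynomial (Fin (2 + 1)) ℂ) (m : ℕ) (C : ℝ) : Prop :=
  ∀ (R : ℝ) (f : ℂ → Fin (2 + 1) → ℂ), 0 < R → DifferentiableOn ℂ f (ball 0 R) →
    (∀ z ∈ ball (0 : ℂ) R, f z ≠ 0 ∧ ∀ a, ZeroOrder (H a) m f z) →
      ∀ i j, ‖f 0 i * deriv f 0 j - f 0 j * deriv f 0 i‖ * R ≤ C * ‖f 0‖ ^ 2

open Pool.Agent.H915 Pool.Agent.Y190.OP Pool.Agent.N155

theorem Transversal.snc {H : Fin 2 → MvPolynomial (Fin (2 + 1)) ℂ} {d : Fin 2 → ℕ}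
    (h : Transversal H d) : ∃ e1 e2, d 0 = e1 + 1 ∧ d 1 = e2 + 1 ∧ SNC (H 0) (H 1) e1 e2 := by
  have p0 := h.pos 0
  have p1 := h.pos 1
  have f0 := h.form 0
  have f1 := h.form 1
  obtain ⟨e1, he1⟩ := Nat.exists_eq_add_of_lt p0
  obtain ⟨e2, he2⟩ := Nat.exists_eq_add_of_lt p1
  rw [zero_add] at he1 he2
  rw [he1] at f0
  rw [he2] at f1
  refine ⟨e1, e2, he1, he2, f0, f1, fun x hx h0 => ?_, fun x hx h0 => ?_, fun x hx h0 h1 => ?_⟩
  · obtain ⟨i, hi⟩ := h.smooth 0 x hx h0
    exact fun hcon => hi (congrFun hcon i)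
  · obtain ⟨i, hi⟩ := h.smooth 1 x hx h0
    exact fun hcon => hi (congrFun hcon i)
  · obtain ⟨i, j, hij⟩ := h.transversal x hx h0 h1
    intro hcon
    apply hij
    have c0 : grad (H 0) x 1 * grad (H 1) x 2 - grad (H 0) x 2 * grad (H 1) x 1 = 0 :=
      congrFun hcon 0
    have c1 : grad (H 0) x 2 * grad (H 1) x 0 - grad (H 0) x 0 * grad (H 1) x 2 = 0 :=
      congrFun hcon 1
    have c2 : grad (H 0) x 0 * grad (H 1) x 1 - grad (H 0) x 1 * grad (H 1) x 0 = 0 :=
      congrFun hcon 2
    change grad (H 0) x i * grad (H 1) x j = grad (H 0) x j * grad (H 1) x i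
    fin_cases i <;> fin_cases j <;> simp only [Fin.zero_eta, Fin.mk_one, Fin.reduceFinMk]
    · linear_combination c2
    · linear_combination -c1
    · linear_combination -c2
    · linear_combination c0
    · linear_combination c1
    · linear_combination -c0

section

variable {H : Fin 2 → MvPolynomial (Fin (2 + 1)) ℂ} {d : Fin 2 → ℕ} {e1 e2 m : ℕ} {ι : Type} {n : ℕ}
  {F : ι → MvPolynomial (Fin n) ℂ} {q : Fin (2 + 1) → MvPolynomial (Fin n) ℂ}

theorem RamifiedCover.plMap (h : RamifiedCover H m F q) : ∃ e, PlMap F q e := by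
  obtain ⟨e, he, h1⟩ := h.map
  exact ⟨e, h.eqs, he, h1, h.base⟩

theorem RamifiedCover.over (h : RamifiedCover H m F q) (a : Fin 2) : RamOver F q m (H a) :=
  h.ram a

theorem gt_of (hS : SNC (H 0) (H 1) e1 e2) (he1 : d 0 = e1 + 1) (he2 : d 1 = e2 + 1)
    (hm : 3 * m < (m - 1) * (d 0 + d 1)) (h : RamifiedCover H m F q) :
    SurfacesOfGeneralType F q := by
  intro K _ _ y hy hF htr halg
  obtain ⟨e, he⟩ := h.plMap
  refine gt_cover hS ?_ he (h.over 0) (h.over 1) hy hF htr halg
  have e3 : e1 + e2 + 2 = d 0 + d 1 := by omega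
  rw [e3]
  exact hm

theorem gm_of_bro (hT : Transversal H d) : GmHyp (H 0) (H 1) ↔ ∀ q, ¬ GmCurve H q := by
  have h00 : eval (0 : Fin 3 → ℂ) (H 0) = 0 := by
    obtain ⟨n, hn⟩ : ∃ n, d 0 = n + 1 := ⟨d 0 - 1, by have := hT.pos 0; omega⟩
    have h1 := hT.form 0
    rw [hn] at h1
    have := eval_smul' h1 0 0
    rwa [smul_zero, zero_pow (Nat.succ_ne_zero _), zero_mul] at this
  constructor
  · rintro h q ⟨h1, s, t, i, j, hs, ht, hne⟩
    exact hne (h q (fun t ht => (onPair_iff.1 (h1 t ht)).2) s t hs ht i j)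
  · intro h q hq s t hs ht i j
    by_contra hne
    refine h q ⟨fun t ht => onPair_iff.2 ⟨fun h3 => (hq t ht).1 ?_, hq t ht⟩, s, t, i, j, hs, ht,
      hne⟩
    rw [h3]
    exact h00

theorem bro_of_gm (hS : SNC (H 0) (H 1) e1 e2) (he1 : d 0 = e1 + 1) (he2 : d 1 = e2 + 1)
    (hk : 2 ≤ e1 + e2) (hG : GmHyp (H 0) (H 1)) : BroHyp (H 0) (H 1) := by
  refine bro_of_lgt hS he1 he2 hk (lgt_of_gm hS he1 he2 hk (isHomogeneous_one _ _)
    fun q hq => Or.inr (hG q fun t ht => ⟨hq t ht 0, hq t ht 1⟩))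

/-- the derivative estimate implies that covers are hyperbolic -/
theorem brody_of_est {C : ℝ} (hE : DerivativeEstimate H m C) {m' : ℕ} (hm : m ≤ m')
    (h : RamifiedCover H m' F q) : BrodyHyperbolic F := by
  intro f hf hF
  obtain ⟨e, he⟩ := h.plMap
  refine he.const hf hF ?_
  obtain ⟨g, hg⟩ : ∃ g : ℂ → V, g = fun w j => eval (f w) (q j) := ⟨_, rfl⟩
  have hgd : Differentiable ℂ g := by
    rw [hg]
    intro z
    exact differentiableAt_pi.2 fun j => diff_evalN hf (q j) z
  have hg0 : ∀ z, g z ≠ 0 := by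
    intro z h0
    obtain ⟨j, hj⟩ := h.base (f z) (hF z)
    rw [hg] at h0
    exact hj (congrFun h0 j)
  have hgR : ∀ z a, Ram (H a) m g z := by
    intro z a
    rw [hg]
    exact ((h.over a).curve hf hF z).mono hm
  have hm' : ∀ z i j, g z i * deriv g z j - g z j * deriv g z i = 0 := by
    intro z i j
    set g1 : ℂ → V := fun y => g (y + z) with hg1
    have hgd1 : Differentiable ℂ g1 := hgd.comp (by fun_prop)
    have hder : deriv g1 0 = deriv g z := by
      have h1 : HasDerivAt g (deriv g z) (0 + z) := by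
        rw [zero_add]
        exact (hgd z).hasDerivAt
      exact (h1.comp_add_const 0 z).deriv
    have hg10 : g1 0 = g z := by rw [hg1]; simp
    have hgX : ∀ y, g1 y ≠ 0 ∧ ∀ a, ZeroOrder (H a) m g1 y := by
      intro y
      have e : g1 = fun t => g (z + 1 * t) := by
        funext t
        change g (t + z) = g (z + 1 * t)
        rw [one_mul, add_comm]
      have e' : y + z = z + 1 * y := by ring
      refine ⟨hg0 _, fun a => ?_⟩
      have h2 := hgR (y + z) a
      rw [e'] at h2
      rw [e]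
      exact h2.comp_aff
    have key : ∀ R : ℝ, 0 < R → ‖g z i * deriv g z j - g z j * deriv g z i‖ ≤
        C * ‖g z‖ ^ 2 / R := by
      intro R hR
      have h1 := hE R g1 hR hgd1.differentiableOn (fun y _ => hgX y) i j
      rw [hder, hg10] at h1
      rw [le_div_iff₀ hR]
      exact h1
    have h2 : Tendsto (fun R : ℝ => C * ‖g z‖ ^ 2 / R) atTop (𝓝 0) :=
      tendsto_const_nhds.div_atTop tendsto_id
    have h3 : ‖g z i * deriv g z j - g z j * deriv g z i‖ ≤ 0 :=
      ge_of_tendsto h2 ((eventually_gt_atTop 0).mono key)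
    exact norm_le_zero_iff.1 h3
  intro z w i j
  have h1 := const_of_minors hgd hg0 hm' z w
  have h2 := (Phi_eq_iff (hg0 z) (hg0 w)).1 h1 i j
  rw [hg] at h2
  exact h2

/-- the explicit surfaces -/
noncomputable def surf (H : Fin 2 → MvPolynomial (Fin (2 + 1)) ℂ) (d : Fin 2 → ℕ) (l : ℕ)
    (a : Fin 2) : MvPolynomial (Fin 5) ℂ :=
  X (Fin.natAdd 3 a) ^ (l * d a) - aeval (fun j : Fin 3 => X (Fin.castAdd 2 j) ^ l) (H a)

theorem surf_cover (hT : Transversal H d) {l : ℕ} (hl : 0 < l) (hm : m ≤ l) :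
    RamifiedCover H m (surf H d l) fun j : Fin 3 => X (Fin.castAdd 2 j) ^ l := by
  have hev : ∀ (x : Fin 5 → ℂ) (a : Fin 2), eval x (aeval (fun j : Fin 3 =>
      (X (Fin.castAdd 2 j) : MvPolynomial (Fin 5) ℂ) ^ l) (H a)) =
        eval (fun j : Fin 3 => eval x ((X (Fin.castAdd 2 j) : MvPolynomial (Fin 5) ℂ) ^ l)) (H a) :=
    fun x a => eval_comp x (H a)
  have hX : ∀ {x : Fin 5 → ℂ} (a : Fin 2), InX (surf H d l) x → x (Fin.natAdd 3 a) ^ (l * d a) =
      eval (fun j : Fin 3 => eval x ((X (Fin.castAdd 2 j) : MvPolynomial (Fin 5) ℂ) ^ l)) (H a) := by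
    intro x a hx
    have h1 := hx.2 a
    unfold surf at h1
    rw [map_sub, map_pow, eval_X, hev, sub_eq_zero] at h1
    exact h1
  have h0 : ∀ a, eval (0 : Fin 3 → ℂ) (H a) = 0 := by
    intro a
    obtain ⟨n, hn⟩ : ∃ n, d a = n + 1 := ⟨d a - 1, by have := hT.pos a; omega⟩
    have h1 := hT.form a
    rw [hn] at h1
    have := eval_smul' h1 0 0
    rwa [smul_zero, zero_pow (Nat.succ_ne_zero _), zero_mul] at this
  refine ⟨fun a => ⟨l * d a, ?_⟩, ⟨l, hl, fun j => isHomogeneous_X_pow _ l⟩, fun x hx => ?_,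
    fun a p hp hp0 => ⟨1, X (Fin.natAdd 3 a), X (Fin.natAdd 3 a) ^ (l * d a - m), ?_, ?_, ?_⟩⟩
  · refine (isHomogeneous_X_pow _ _).sub ?_
    have h1 := (hT.form a).aeval (fun j : Fin 3 =>
      (X (Fin.castAdd 2 j) : MvPolynomial (Fin 5) ℂ) ^ l) fun j => isHomogeneous_X_pow _ l
    exact h1
  · by_contra hcon
    push Not at hcon
    apply hx.1
    have hx3 : ∀ j : Fin 3, x (Fin.castAdd 2 j) = 0 := by
      intro j
      have h1 := hcon j
      rw [map_pow, eval_X] at h1
      by_contra h2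
      exact pow_ne_zero _ h2 h1
    have hw : ∀ a : Fin 2, x (Fin.natAdd 3 a) = 0 := by
      intro a
      have h1 := hX a hx
      have h2 : (fun j : Fin 3 => eval x ((X (Fin.castAdd 2 j) : MvPolynomial (Fin 5) ℂ) ^ l)) =
          0 := funext hcon
      rw [h2, h0] at h1
      by_contra h3
      exact pow_ne_zero _ h3 h1
    funext j
    refine Fin.addCases (m := 3) (n := 2) (motive := fun j => x j = (0 : Fin 5 → ℂ) j)
      (fun j => hx3 j) (fun a => hw a) j
  · rw [map_one]
    exact one_ne_zero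
  · intro x hx hx0 _
    rw [eval_X]
    have h1 := hX a hx
    rw [hx0] at h1
    by_contra h2
    exact pow_ne_zero _ h2 h1
  · intro x hx
    rw [map_one, one_mul, map_pow, eval_X, ← hX a hx, ← pow_add]
    congr 1
    have h1 : l * 1 ≤ l * d a := Nat.mul_le_mul_left l (hT.pos a)
    omega

/-- the function field of the explicit surfaces -/
theorem surf_alg (hT : Transversal H d) {l : ℕ} (hl : 0 < l) {K : Type} [Field K] [Algebra ℂ K]
    {y : Fin 5 → K} (hy : y ≠ 0) (hF : ∀ a, aeval y (surf H d l a) = 0)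
    (halg : Algebra.IsAlgebraic (coords ℂ (n := 4) y) K) :
    Algebra.IsAlgebraic (coords ℂ (n := 2) fun j : Fin 3 =>
      aeval y ((X (Fin.castAdd 2 j) : MvPolynomial (Fin 5) ℂ) ^ l)) K := by
  obtain ⟨e, he⟩ := (surf_cover (m := 0) hT hl (Nat.zero_le _)).plMap
  have hz := he.ne hy hF
  obtain ⟨z, hzdef⟩ : ∃ z : Fin 3 → K, z = fun j : Fin 3 =>
      aeval y ((X (Fin.castAdd 2 j) : MvPolynomial (Fin 5) ℂ) ^ l) := ⟨_, rfl⟩
  have hzj : ∀ j : Fin 3, z j = y (Fin.castAdd 2 j) ^ l := by
    intro j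
    rw [hzdef]
    simp only [map_pow, aeval_X]
  change Algebra.IsAlgebraic (coords ℂ (n := 2) fun j : Fin 3 =>
      aeval y ((X (Fin.castAdd 2 j) : MvPolynomial (Fin 5) ℂ) ^ l)) K
  rw [← hzdef]
  rw [← hzdef] at hz
  obtain ⟨i0, hi0⟩ := Function.ne_iff.1 hz
  have hzi0 : z i0 ≠ 0 := hi0
  have hyi0 : y (Fin.castAdd 2 i0) ≠ 0 := by
    intro h
    rw [hzj, h, zero_pow hl.ne'] at hzi0
    exact hzi0 rfl
  have hmem : ∀ j, z j / z i0 ∈ coords ℂ (n := 2) z := fun j =>
    IntermediateField.subset_adjoin _ _ ⟨j, i0, hzi0, rfl⟩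
  have hroot : ∀ (x : K) (N : ℕ), 0 < N → x ^ N ∈ coords ℂ (n := 2) z →
      x ∈ algebraicClosure (coords ℂ (n := 2) z) K := by
    intro x N hN hx
    rw [mem_algebraicClosure_iff]
    have h1 : IsAlgebraic (coords ℂ (n := 2) z) (x ^ N) :=
      isAlgebraic_algebraMap (⟨x ^ N, hx⟩ : coords ℂ (n := 2) z)
    exact IsAlgebraic.of_pow hN h1
  have hall : ∀ j : Fin 5, y j / y (Fin.castAdd 2 i0) ∈
      algebraicClosure (coords ℂ (n := 2) z) K := by
    intro j
    refine Fin.addCases (m := 3) (n := 2) (motive := fun j => y j / y (Fin.castAdd 2 i0) ∈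
      algebraicClosure (coords ℂ (n := 2) z) K) (fun j => ?_) (fun a => ?_) j
    · refine hroot _ l hl ?_
      rw [div_pow, ← hzj, ← hzj]
      exact hmem j
    · refine hroot _ (l * d a) (Nat.mul_pos hl (hT.pos a)) ?_
      have h1 := hF a
      unfold surf at h1
      rw [map_sub, map_pow, aeval_X, sub_eq_zero] at h1
      have h2 : aeval y (aeval (fun j : Fin 3 => (X (Fin.castAdd 2 j) : MvPolynomial (Fin 5) ℂ) ^ l)
          (H a)) = aeval z (H a) := by
        rw [hzdef, ← comp_aeval_apply]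
      rw [h2] at h1
      have h3 : aeval z (H a) = z i0 ^ d a * aeval (fun j => z j / z i0) (H a) := by
        have h4 := sc_k (hT.form a) (z i0) (fun j => z j / z i0)
        have h5 : z = fun j => z i0 * (z j / z i0) := by
          funext j
          field_simp
        rw [← h5] at h4
        exact h4
      have h4 : (y (Fin.natAdd 3 a) / y (Fin.castAdd 2 i0)) ^ (l * d a) =
          aeval (fun j => z j / z i0) (H a) := by
        rw [div_pow, h1, h3, hzj i0, ← pow_mul, mul_div_cancel_left₀ _ (pow_ne_zero _ hyi0)]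
      rw [h4]
      have h5 : aeval (fun j => z j / z i0) (H a) =
          algebraMap (coords ℂ (n := 2) z) K (aeval (fun j => (⟨z j / z i0, hmem j⟩ :
            coords ℂ (n := 2) z)) (H a)) := by
        rw [← aeval_algebraMap_apply]
        rfl
      rw [h5]
      exact Subtype.property _
  have hle : coords ℂ (n := 4) y ≤
      (algebraicClosure (coords ℂ (n := 2) z) K).restrictScalars ℂ := by
    unfold coords
    rw [IntermediateField.adjoin_le_iff]
    rintro _ ⟨i, j, hj, rfl⟩
    have h3 : y i / y j = (y i / y (Fin.castAdd 2 i0)) / (y j / y (Fin.castAdd 2 i0)) := by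
      field_simp
    rw [h3]
    exact div_mem (hall i) (hall j)
  let _ : Algebra (coords ℂ (n := 4) y) (algebraicClosure (coords ℂ (n := 2) z) K) :=
    (IntermediateField.inclusion hle).toRingHom.toAlgebra
  have : IsScalarTower (coords ℂ (n := 4) y) (algebraicClosure (coords ℂ (n := 2) z) K) K :=
    IsScalarTower.of_algebraMap_eq fun x => rfl
  have h1 : Algebra.IsAlgebraic (algebraicClosure (coords ℂ (n := 2) z) K) K :=
    Algebra.IsAlgebraic.extendScalars (R := coords ℂ (n := 4) y)
      (IntermediateField.inclusion hle).toRingHom.injective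
  exact Algebra.IsAlgebraic.trans (coords ℂ (n := 2) z)
    (algebraicClosure (coords ℂ (n := 2) z) K) K

end

/-- **Surfaces which are highly ramified over two plane curves.** -/
theorem result (H : Fin 2 → MvPolynomial (Fin (2 + 1)) ℂ) (d : Fin 2 → ℕ) :
    -- (1) general type
    (Transversal H d → ∀ m : ℕ, 3 * m < (m - 1) * (d 0 + d 1) → ∀ (ι : Type) (n : ℕ)
      (F : ι → MvPolynomial (Fin n) ℂ) (q : Fin (2 + 1) → MvPolynomial (Fin n) ℂ),
        RamifiedCover H m F q → SurfacesOfGeneralType F q) ∧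
    -- (2) hyperbolicity
    (Transversal H d → 4 ≤ d 0 + d 1 →
      ((∀ q, ¬ GmCurve H q) ↔ ∃ (m : ℕ) (C : ℝ), DerivativeEstimate H m C) ∧
      ∀ (m : ℕ) (C : ℝ), DerivativeEstimate H m C → ∀ m', m ≤ m' → ∀ (ι : Type) (n : ℕ)
        (F : ι → MvPolynomial (Fin n) ℂ) (q : Fin (2 + 1) → MvPolynomial (Fin n) ℂ),
          RamifiedCover H m' F q → BrodyHyperbolic F) ∧
    -- (3) very general curves
    (VeryGeneral H d → (∀ a, 0 < d a) → 5 ≤ d 0 + d 1 →
      (∃ m : ℕ, ∀ m', m ≤ m' → ∀ (ι : Type) (n : ℕ) (F : ι → MvPolynomial (Fin n) ℂ)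
        (q : Fin (2 + 1) → MvPolynomial (Fin n) ℂ), RamifiedCover H m' F q →
          BrodyHyperbolic F ∧ SurfacesOfGeneralType F q) ∧
      ∃ l0 : ℕ, ∀ l, l0 ≤ l → BrodyHyperbolic (surf H d l) ∧
        ∀ (K : Type) [Field K] [Algebra ℂ K] (y : Fin 5 → K), y ≠ 0 →
          (∀ a, aeval y (surf H d l a) = 0) → Algebra.trdeg ℂ K = (2 : ℕ) →
            Algebra.IsAlgebraic (coords ℂ (n := 4) y) K → GeneralType ℂ K 2) := by
  have hA : Transversal H d → 4 ≤ d 0 + d 1 → (∀ q, ¬ GmCurve H q) →
      ∃ (m : ℕ) (C : ℝ), DerivativeEstimate H m C := by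
    intro hT hd hG
    obtain ⟨e1, e2, he1, he2, hS⟩ := hT.snc
    obtain ⟨m0, C, hC⟩ := hS.minorsm (by omega)
      (bro_of_gm hS he1 he2 (by omega) ((gm_of_bro hT).2 hG))
    exact ⟨m0, C, fun R f hR hf hX => hC f R hR hf fun z hz =>
      ⟨(hX z hz).1, (hX z hz).2 0, (hX z hz).2 1⟩⟩
  have hB : Transversal H d → ∀ m : ℕ, 3 * m < (m - 1) * (d 0 + d 1) → ∀ (ι : Type) (n : ℕ)
      (F : ι → MvPolynomial (Fin n) ℂ) (q : Fin (2 + 1) → MvPolynomial (Fin n) ℂ),
        RamifiedCover H m F q → SurfacesOfGeneralType F q := by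
    intro hT m hm ι n F q hq
    obtain ⟨e1, e2, he1, he2, hS⟩ := hT.snc
    exact gt_of hS he1 he2 hm hq
  refine ⟨hB, fun hT hd => ⟨⟨hA hT hd, ?_⟩, fun m C hE m' hm ι n F q hq =>
    brody_of_est hE hm hq⟩, fun hV hpos hd => ?_⟩
  · rintro ⟨m, C, hE⟩
    obtain ⟨e1, e2, he1, he2, hS⟩ := hT.snc
    have hD : DiscHyp (H 0) (H 1) := ⟨C, fun R f hR hf hX => hE R f hR hf fun z hz =>
      ⟨(hX z hz).1, fun a h0 => by
        exfalso
        fin_cases a
        · exact (hX z hz).2.1 h0
        · exact (hX z hz).2.2 h0⟩⟩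
    exact (gm_of_bro hT).1 (gm_of_ent hS.h1 (entHyp_of_disc hD))
  · have hVG : VG H d := hV
    have hex : ∀ a, ∃ n, d a = n + 1 := fun a => ⟨d a - 1, by have := hpos a; omega⟩
    have hT : Transversal H d := by
      refine ⟨hpos, hV.1, fun a x hx _ => ?_, fun x hx h0 h1 => ?_⟩
      · obtain ⟨n, hn⟩ := hex a
        exact Function.ne_iff.1 (hVG.smooth a hn hx)
      · obtain ⟨n, hn⟩ := hex 0
        obtain ⟨m, hm⟩ := hex 1
        by_contra hcon
        push Not at hcon
        refine hVG.trans (a := 0) (b := 1) (by decide) hn hm hx h0 ?_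
        have k : ∀ i j, grad (H 0) x i * grad (H 1) x j = grad (H 0) x j * grad (H 1) x i := hcon
        apply v_ext
        · rw [cr_0, k 1 2, Pi.zero_apply]
          ring
        · rw [cr_1, k 2 0, Pi.zero_apply]
          ring
        · rw [cr_2, k 0 1, Pi.zero_apply]
          ring
    obtain ⟨e1, e2, he1, he2, hS⟩ := hT.snc
    have hsum : ∑ a, d a = d 0 + d 1 := Fin.sum_univ_two d
    have hL : Pool.Agent.Results.MP_64ff02_ag.GenericPairsSpecialSet.LogGTOutside H d ∅ 1 :=
      (Pool.Agent.Results.MP_64ff02_ag.GenericPairsSpecialSet.result (n := 2) (by norm_num)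
        hpos ∅ (by
          intro h
          have := Finset.notMem_empty (0 : Fin 2)
          rw [h] at this
          exact this (Finset.mem_univ 0)) (by rw [hsum, Finset.card_empty]; omega) H hV).2.2.2.1
          (by rw [hsum, Finset.card_empty]; omega)
    have hBr := bro_of_lgt hS he1 he2 (by omega) hL
    obtain ⟨m0, C, hC⟩ := hS.minorsm (by omega) hBr
    have hE : DerivativeEstimate H m0 C := fun R f hR hf hX => hC f R hR hf fun z hz =>
      ⟨(hX z hz).1, (hX z hz).2 0, (hX z hz).2 1⟩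
    have hgt : ∀ m', 3 ≤ m' → 3 * m' < (m' - 1) * (d 0 + d 1) := by
      intro m' hm'
      obtain ⟨r, rfl⟩ : ∃ r, m' = r + 3 := ⟨m' - 3, by omega⟩
      have h1 : r + 3 - 1 = r + 2 := by omega
      rw [h1]
      nlinarith
    refine ⟨⟨max m0 3, fun m' hm' ι n F q hq => ⟨brody_of_est hE ((le_max_left _ _).trans hm') hq,
      hB hT m' (hgt m' ((le_max_right _ _).trans hm')) ι n F q hq⟩⟩, max m0 3,
      fun l hl => ⟨brody_of_est hE (le_max_left m0 3) (surf_cover hT ?_ hl),
      fun K _ _ y hy hF htr halg => ?_⟩⟩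
    · have := (le_max_right m0 3).trans hl
      omega
    · have hl0 : 0 < l := by
        have := (le_max_right m0 3).trans hl
        omega
      exact hB hT (max m0 3) (hgt _ (le_max_right _ _)) _ _ _ _ (surf_cover hT hl0 hl) K y hy hF htr
        (surf_alg hT hl0 hy hF halg)

end Pool.Agent.Results.MP_2a5ae2_ag.RamifiedOverTwoCurves
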